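import Mathlib
import Pool.Agent.Helper9.NS
import Pool.Agent.Helper15.KP.HFb
import Pool.Agent.Helper17.FF.Approx

/-!
# KP: harmonic functions on the places of rational function fields
-/

set_option linter.unusedSectionVars false

namespace Pool.Agent.Helper15.KP

open VC VF Function Polynomial Pool.Agent.Helper21.TO Pool.Agent.Helper21.TB Pool.Agent.Helper15.GT
open Pool.Agent.Helper51.VN (Harm)

universe u

variable {k : Type u} [Field k] [IsAlgClosed k] [CharZero k] {F : Type u} [Field F] [Algebra k F]

omit [IsAlgClosed k] [CharZero k] in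
private lemma exists_cop_5 (r s : k[X]) (hs : s ≠ 0) :
    ∃ g r' s' : k[X], g * r' = r ∧ g * s' = s ∧ IsCoprime r' s' := by
  classical
  have hg : EuclideanDomain.gcd r s ≠ 0 := by
    intro h0
    rw [EuclideanDomain.gcd_eq_zero_iff] at h0
    exact hs h0.2
  obtain ⟨r', hr'⟩ := EuclideanDomain.gcd_dvd_left r s
  obtain ⟨s', hs'⟩ := EuclideanDomain.gcd_dvd_right r s
  refine ⟨EuclideanDomain.gcd r s, r', s', hr'.symm, hs'.symm, EuclideanDomain.gcdA r s,
    EuclideanDomain.gcdB r s, ?_⟩
  have h1 := EuclideanDomain.gcd_eq_gcd_ab r s
  apply mul_left_cancel₀ hg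
  calc EuclideanDomain.gcd r s * (EuclideanDomain.gcdA r s * r' + EuclideanDomain.gcdB r s * s') =
      (EuclideanDomain.gcd r s * r') * EuclideanDomain.gcdA r s +
        (EuclideanDomain.gcd r s * s') * EuclideanDomain.gcdB r s := by ring
    _ = r * EuclideanDomain.gcdA r s + s * EuclideanDomain.gcdB r s := by rw [← hr', ← hs']
    _ = EuclideanDomain.gcd r s * 1 := by rw [← h1, mul_one]

/-- A place of `k(x)` is determined by the value of `x`. -/
private lemma place_unique_5 {K : Type u} [Field K] [Algebra k K] (hK : IsFunctionField k K) (x : K)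
    (hx : IntermediateField.adjoin k {x} = ⊤) {P Q : Place k K} {a : k} (hP : IsRes P x a)
    (hQ : IsRes Q x a) : P = Q := by
  classical
  refine FF.place_eq_of_le hK fun z hz => ?_
  have hz1 : z ∈ IntermediateField.adjoin k {x} := by
    rw [hx]
    exact IntermediateField.mem_top
  rw [IntermediateField.mem_adjoin_simple_iff] at hz1
  obtain ⟨r, s, hrs⟩ := hz1
  by_cases hs0 : aeval x s = 0
  · rw [hrs, hs0, div_zero]
    exact Q.ring.zero_mem
  have hs : s ≠ 0 := by
    rintro rfl
    exact hs0 (map_zero _)
  obtain ⟨g, r', s', hgr, hgs, hcop⟩ := exists_cop_5 r s hs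
  have h1 : aeval x g * aeval x s' = aeval x s := by rw [← map_mul, hgs]
  have hgx : aeval x g ≠ 0 := by
    intro h0
    rw [h0, zero_mul] at h1
    exact hs0 h1.symm
  have hsx : aeval x s' ≠ 0 := by
    intro h0
    rw [h0, mul_zero] at h1
    exact hs0 h1.symm
  have hz2 : z * aeval x s' = aeval x r' := by
    have h2 : aeval x g * aeval x r' = aeval x r := by rw [← map_mul, hgr]
    rw [hrs, ← h1, ← h2]
    field_simp
  have hsa : s'.eval a ≠ 0 := by
    intro h0
    have h3 : IsRes P (aeval x s') 0 := by
      have := hP.poly (p := s')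
      rwa [h0] at this
    obtain ⟨c, hc⟩ := exists_res hK hz
    have h4 := hc.mul h3
    rw [mul_zero, hz2] at h4
    have h5 := (hP.poly (p := r')).unique h4
    obtain ⟨u, v, huv⟩ := hcop
    have h6 := congrArg (Polynomial.eval a) huv
    rw [eval_add, eval_mul, eval_mul, h5, h0, mul_zero, mul_zero, add_zero, eval_one] at h6
    exact zero_ne_one h6
  have h7 := ((hQ.poly (p := s')).inv_mem hsa).2
  have h8 := (hQ.poly (p := r')).mem
  have h9 : z = aeval x r' * (aeval x s')⁻¹ := by
    rw [← hz2, mul_inv_cancel_right₀ hsx]
  rw [h9]
  exact Q.ring.mul_mem _ _ h8 h7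

private lemma comap_id_5 {K : Type u} [Field K] [Algebra k K] (hK : IsFunctionField k K) (v : Place k K) :
    Place.comap hK hK (AlgHom.id k K) v = v := by
  ext z
  rfl

/-- Harmonic functions on the places of `k(x)` are constant. -/
theorem harm_kx {K : Type u} [Field K] [Algebra k K] (hK : IsFunctionField k K) (x : K)
    (hx : IntermediateField.adjoin k {x} = ⊤) {l : Place k K → k} (hl : Harm hK l) (P Q : Place k K) :
    l P = l Q := by
  classical
  -- a generator with finite values at both places
  obtain ⟨c, hcP, hcQ⟩ : ∃ c : k, ¬ IsRes P x c ∧ ¬ IsRes Q x c := by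
    have h1 : ({c : k | IsRes P x c} ∪ {c : k | IsRes Q x c}).Finite := by
      refine Set.Finite.union ?_ ?_
      · exact Set.Subsingleton.finite fun a ha b hb => IsRes.unique ha hb
      · exact Set.Subsingleton.finite fun a ha b hb => IsRes.unique ha hb
    obtain ⟨c, hc⟩ := h1.infinite_compl.nonempty
    exact ⟨c, fun h => hc (Or.inl h), fun h => hc (Or.inr h)⟩
  set τ : K := (x - algebraMap k K c)⁻¹ with hτdef
  have hne : x - algebraMap k K c ≠ 0 := by
    intro h0
    apply hcP
    unfold IsRes
    rw [h0]
    exact nonunits_zero
  have hτP : τ ∈ P.ring := by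
    have h1 : x - algebraMap k K c ∉ P.ring.nonunits := hcP
    rw [ValuationSubring.mem_nonunits_iff_or] at h1
    push Not at h1
    exact h1.2
  have hτQ : τ ∈ Q.ring := by
    have h1 : x - algebraMap k K c ∉ Q.ring.nonunits := hcQ
    rw [ValuationSubring.mem_nonunits_iff_or] at h1
    push Not at h1
    exact h1.2
  have hτgen : IntermediateField.adjoin k {τ} = ⊤ := by
    rw [eq_top_iff, ← hx, IntermediateField.adjoin_simple_le_iff]
    have h1 : τ⁻¹ + algebraMap k K c = x := by
      rw [hτdef, inv_inv, sub_add_cancel]
    rw [← h1]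
    exact add_mem (inv_mem (IntermediateField.mem_adjoin_simple_self k τ))
      ((IntermediateField.adjoin k {τ}).algebraMap_mem c)
  obtain ⟨a, ha⟩ := exists_res hK hτP
  obtain ⟨b, hb⟩ := exists_res hK hτQ
  by_cases hab : a = b
  · subst hab
    rw [place_unique_5 hK τ hτgen ha hb]
  · have htr : Transcendental k τ := by
      have h0 : τ - algebraMap k K a ≠ 0 := by
        intro h0
        have h1 : IsRes Q τ a := by
          unfold IsRes
          rw [h0]
          exact nonunits_zero
        exact hab (h1.unique hb)
      have h1 := transcendental_of_mem_nonunits P h0 ha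
      intro h2
      exact h1 (h2.sub (isAlgebraic_algebraMap a))
    refine path (harm_curve hl) hK (Sum.inr (AlgHom.id k K)) htr hab (A := l P) (B := l Q) ?_ ?_
    · intro v hv
      have h1 : Place.comap hK hK (AlgHom.id k K) v = P := by
        rw [comap_id_5]
        exact place_unique_5 hK τ hτgen hv ha
      exact congrArg l h1
    · intro v hv
      have h1 : Place.comap hK hK (AlgHom.id k K) v = Q := by
        rw [comap_id_5]
        exact place_unique_5 hK τ hτgen hv hb
      exact congrArg l h1

/-- Harmonic functions on the rational places of a rational function field of two variables are constant. -/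
theorem HF.const_of_rat (x y : F) (hxy : AlgebraicIndependent k ![x, y])
    (hgen : IntermediateField.adjoin k {x, y} = ⊤) {u : RPl k F → k} (hu : HF k F u) (w w' : RPl k F) :
    u w = u w' := by
  classical
  let K : IntermediateField k F := IntermediateField.adjoin k {x}
  let x' : K := ⟨x, IntermediateField.mem_adjoin_simple_self k x⟩
  have htrx : Transcendental k x := hxy.transcendental 0
  have htrx' : Transcendental k x' := by
    intro h0
    apply htrx
    exact (isAlgebraic_algebraMap_iff (algebraMap K F).injective).mpr h0
  have hgen' : IntermediateField.adjoin k {x'} = ⊤ := by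
    apply IntermediateField.lift_injective K
    rw [IntermediateField.lift_adjoin_simple, IntermediateField.lift_top]
  have hK : IsFunctionField k K := by
    refine ⟨x', htrx', ?_⟩
    rw [hgen']
    refine Module.Finite.of_surjective (R := (⊤ : IntermediateField k K))
      (M := (⊤ : IntermediateField k K))
      (Algebra.linearMap (⊤ : IntermediateField k K) K) ?_
    intro z
    exact ⟨⟨z, IntermediateField.mem_top⟩, rfl⟩
  have htry : Transcendental K y := by
    have h1 := hxy.transcendental_adjoin (s := {0}) (i := 1) (by simp)
    rw [Set.image_singleton] at h1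
    rw [IntermediateField.transcendental_adjoin_iff]
    exact h1
  have hKy : IntermediateField.adjoin K {y} = ⊤ := by
    rw [eq_top_iff]
    intro z _
    have hz : z ∈ IntermediateField.adjoin k {x, y} := by
      rw [hgen]
      exact IntermediateField.mem_top
    have hle : IntermediateField.adjoin k {x, y} ≤
        (IntermediateField.adjoin K {y}).restrictScalars k := by
      rw [IntermediateField.adjoin_le_iff]
      rintro z (rfl | rfl)
      · exact (IntermediateField.adjoin K {y}).algebraMap_mem x'
      · exact IntermediateField.mem_adjoin_simple_self K _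
    exact hle hz
  obtain ⟨l, hl, hw⟩ := HF.ruled hK K.val y (fun p hp => by
      by_contra h0
      exact htry ⟨p, h0, hp⟩) (fun z => by
      have hz : z ∈ IntermediateField.adjoin K {y} := by
        rw [hKy]
        exact IntermediateField.mem_top
      rw [IntermediateField.mem_adjoin_simple_iff] at hz
      obtain ⟨r, s, hrs⟩ := hz
      by_cases hs0 : aeval y s = 0
      · refine ⟨0, 1, ?_, ?_⟩
        · rw [eval₂_one]
          exact one_ne_zero
        · rw [hrs, hs0, div_zero, zero_mul, eval₂_zero]
      · refine ⟨r, s, hs0, ?_⟩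
        change z * aeval y s = aeval y r
        rw [hrs, div_mul_cancel₀ _ hs0]) hu
  rw [hw w, hw w']
  exact harm_kx hK x' hgen' hl _ _

end Pool.Agent.Helper15.KP
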